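import Pool.Agent.Zk85.AW8

/-!
# The Atiyah conjecture: abelian factors, specialisation and torsionfree quotients

For every group `G` the kernel dimensions over `ℂ[G × A]`, `A` abelian, are exactly the quotients
`v / n`, where `v` is a kernel dimension over `ℂ[G]` and `n` the order of a finite subgroup of `A`.
This rests on a bound for the kernel dimensions of the specialisations of a matrix over
`ℂ[G × ℤ] = ℂ[G][z, z⁻¹]` at complex numbers. Moreover the Atiyah conjecture passes from the kernel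
of a homomorphism to the whole group when the target is in the smallest class of groups which
contains the torsionfree abelian groups and is closed under extensions and directed unions.
-/

set_option autoImplicit false

noncomputable section

namespace Pool.Agent.Results.MP_54e5d7_al.AbelianExtensions

/-- The orders of the finite subgroups of `G` are bounded, and `d` is their least common
multiple. -/
def IsLcm (G : Type) [Group G] (d : ℕ) : Prop :=
  (∃ N : ℕ, ∀ H : Subgroup G, Finite H → Nat.card H ≤ N) ∧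
    (∀ H : Subgroup G, Finite H → Nat.card H ∣ d) ∧
    ∀ e : ℕ, (∀ H : Subgroup G, Finite H → Nat.card H ∣ e) → d ∣ e

/-- The kernel of right multiplication by the matrix `A` on `ℓ²(G)^m`. -/
def kernel {G : Type} [Group G] {m n : ℕ} (A : Matrix (Fin m) (Fin n) (G →₀ ℂ)) :
    Set (lp (fun _ : Fin m × G => ℂ) 2) :=
  {x | ∀ (j : Fin n) (g : G),
    ∑ i : Fin m, (A i j).sum (fun h c => x (i, g * h⁻¹) * c) = 0}

open Classical in
/-- The von Neumann dimension of this kernel: the sum over `i` of one minus the squared distance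
from the basis vector at `(i, 1)` to the kernel, that is, the trace of the projection onto the
kernel. -/
def kerDim {G : Type} [Group G] {m n : ℕ} (A : Matrix (Fin m) (Fin n) (G →₀ ℂ)) : ℝ :=
  ∑ i : Fin m, (1 - (Metric.infDist
    (lp.single 2 (i, (1 : G)) (1 : ℂ) : lp (fun _ : Fin m × G => ℂ) 2) (kernel A)) ^ 2)

/-- The set `V(G)` of the kernel dimensions of all matrices over `ℂ[G]`. -/
def kerDims (G : Type) [Group G] : Set ℝ :=
  {v | ∃ (m n : ℕ) (A : Matrix (Fin m) (Fin n) (G →₀ ℂ)), kerDim A = v}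

/-- `G` satisfies the Atiyah conjecture with coefficients in `ℂ` (and hence with coefficients in
any subfield): if the orders of the finite subgroups of `G` are bounded, with least common
multiple `d`, then `d · dim ker A` is an integer for every matrix `A` over `ℂ[G]`. -/
def Atiyah (G : Type) [Group G] : Prop :=
  ∀ d : ℕ, IsLcm G d → ∀ v ∈ kerDims G, ∃ z : ℤ, (d : ℝ) * v = z

/-- The specialisation at `z = ζ` of a matrix over `ℂ[G × ℤ] = ℂ[G][z, z⁻¹]`: the entry
`∑ c (g, z ^ k)` becomes `∑ c ζ ^ k g`. -/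
def specialise {G : Type} [Group G] {m n : ℕ}
    (A : Matrix (Fin m) (Fin n) (G × Multiplicative ℤ →₀ ℂ)) (ζ : ℂ) :
    Matrix (Fin m) (Fin n) (G →₀ ℂ) :=
  fun i j => (A i j).sum fun g c => Finsupp.single g.1 (c * ζ ^ (Multiplicative.toAdd g.2))

/-- The smallest class of groups which contains the torsionfree abelian groups, contains `Q` when
it contains `R` and the kernel of a homomorphism `Q → R`, and contains `Q` when every finite
subset of `Q` lies in a subgroup of `Q` belonging to the class. -/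
inductive Tame : (Q : Type) → [Group Q] → Prop
  | comm (Q : Type) [CommGroup Q] (h : ∀ (q : Q) (n : ℕ), 0 < n → q ^ n = 1 → q = 1) : Tame Q
  | ext (Q R : Type) [Group Q] [Group R] (f : Q →* R) (h1 : Tame f.ker) (h2 : Tame R) : Tame Q
  | union (Q : Type) [Group Q] (P : Finset Q → Subgroup Q) (h1 : ∀ S, ∀ s ∈ S, s ∈ P S)
      (h2 : ∀ S, Tame (P S)) : Tame Q

open Pool.Agent.W656.VA Pool.Agent.Zk85.AW

theorem kerDim_eq' {G : Type} [Group G] {m n : ℕ} (A : Matrix (Fin m) (Fin n) (G →₀ ℂ)) :
    kerDim A = Pool.Agent.W656.VA.kerDim A := rfl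

theorem mem_kerDims {G : Type} [Group G] (v : ℝ) : v ∈ kerDims G ↔ Val ⊤ G v := by
  constructor
  · rintro ⟨m, n, A, rfl⟩
    exact val_kerDim A fun _ _ _ => Subring.mem_top _
  · intro h
    obtain ⟨m, n, A, -, hA⟩ := exists_kerDim h
    exact ⟨m, n, A, hA⟩

theorem cv_specialise {G : Type} [Group G] {m n : ℕ}
    (A : Matrix (Fin m) (Fin n) (G × Multiplicative ℤ →₀ ℂ)) (ζ : ℂ) :
    cv (specialise A ζ) = spec (cv A) ζ⁻¹ := by
  funext j i
  unfold cv specialise spec
  rw [Finsupp.sum_mapDomain_index (by intro b; simp) (by intro b c e; simp [add_mul])]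
  unfold Finsupp.sum
  rw [Finsupp.mapDomain_finsetSum]
  refine Finset.sum_congr rfl fun g _ => ?_
  rw [Finsupp.mapDomain_single]
  congr 2
  rw [Prod.snd_inv, toAdd_inv, zpow_neg, inv_zpow, inv_inv]

theorem kerDim_specialise {G : Type} [Group G] {m n : ℕ}
    (A : Matrix (Fin m) (Fin n) (G × Multiplicative ℤ →₀ ℂ)) (ζ : ℂ) :
    kerDim (specialise A ζ) =
      Pool.Agent.H80R2.BC.vdim (Pool.Agent.H80R2.BC.kerA (spec (cv A) ζ⁻¹)) := by
  rw [kerDim_eq', kerDim_eq, cv_specialise]

theorem degIn_cv {G : Type} [Group G] {m n : ℕ}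
    {A : Matrix (Fin m) (Fin n) (G × Multiplicative ℤ →₀ ℂ)} {a : ℤ} {d : ℕ}
    (hA : ∀ i j g, A i j g ≠ 0 → a ≤ Multiplicative.toAdd g.2 ∧
      Multiplicative.toAdd g.2 ≤ a + d) : DegIn (cv A) (-(a + d)) d := by
  intro j i g hg
  have h1 : cv A j i g = A i j g⁻¹ := by
    unfold cv
    have := Finsupp.mapDomain_apply (inv_injective (G := G × Multiplicative ℤ)) (A i j) g⁻¹
    rw [inv_inv] at this
    exact this
  rw [h1] at hg
  have h2 := hA i j g⁻¹ hg
  rw [Prod.snd_inv, toAdd_inv] at h2
  constructor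
  · linarith [h2.2]
  · linarith [h2.1]

theorem spec_part {G : Type} [Group G] (m n : ℕ)
    (A : Matrix (Fin m) (Fin n) (G × Multiplicative ℤ →₀ ℂ)) (a : ℤ) (d : ℕ)
    (hA : ∀ i j g, A i j g ≠ 0 → a ≤ Multiplicative.toAdd g.2 ∧
      Multiplicative.toAdd g.2 ≤ a + d) :
    (∀ ζ : ℂ, ζ ≠ 0 → kerDim A ≤ kerDim (specialise A ζ)) ∧
    (∀ s : Finset ℂ, (0 : ℂ) ∉ s →
      ∑ ζ ∈ s, (kerDim (specialise A ζ) - kerDim A) ≤ d * (m - kerDim A)) ∧
    {ζ : ℂ | ζ ≠ 0 ∧ kerDim (specialise A ζ) ≠ kerDim A}.Countable := by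
  classical
  have hd := degIn_cv hA
  have hk : kerDim A = Pool.Agent.H80R2.BC.vdim (Pool.Agent.H80R2.BC.kerA (cv A)) := kerDim_eq A
  refine ⟨?_, ?_, ?_⟩
  · intro ζ hζ
    rw [hk, kerDim_specialise]
    exact spec_ge hd (inv_ne_zero hζ)
  · intro s hs
    have h1 := spec_sum hd (s.image fun ζ => ζ⁻¹) (by
      rw [Finset.mem_image]
      rintro ⟨ζ, hζ, h0⟩
      rw [inv_eq_zero] at h0
      exact hs (h0 ▸ hζ))
    rw [Finset.sum_image (fun x _ y _ h => inv_injective h), Fintype.card_fin, ← hk] at h1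
    refine le_trans (le_of_eq ?_) h1
    refine Finset.sum_congr rfl fun ζ _ => ?_
    rw [kerDim_specialise]
  · refine ((spec_countable hd).image fun ζ : ℂ => ζ⁻¹).mono ?_
    rintro ζ ⟨h1, h2⟩
    refine ⟨ζ⁻¹, ⟨inv_ne_zero h1, ?_⟩, inv_inv ζ⟩
    rw [← kerDim_specialise, ← hk]
    exact h2

theorem tame_torsionfree {Q : Type} [Group Q] (h : Tame Q) :
    ∀ (q : Q) (n : ℕ), 0 < n → q ^ n = 1 → q = 1 := by
  induction h with
  | comm Q h => exact h
  | ext Q R f _ _ ih1 ih2 =>
    intro q n hn hq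
    have h1 : f q = 1 := ih2 (f q) n hn (by rw [← map_pow, hq, map_one])
    have h2 := ih1 (⟨q, h1⟩ : f.ker) n hn (Subtype.ext (by simpa using hq))
    exact congrArg Subtype.val h2
  | union Q P h1 _ ih =>
    intro q n hn hq
    have h2 := ih {q} (⟨q, h1 {q} q (Finset.mem_singleton_self q)⟩ : P {q}) n hn
      (Subtype.ext (by simpa using hq))
    exact congrArg Subtype.val h2

theorem tame_transfer {Q : Type} [Group Q] (h : Tame Q) :
    ∀ {Γ : Type} [Group Γ] (f : Γ →* Q) (D : ℕ),
      (∀ v : ℝ, Val ⊤ f.ker v → ∃ z : ℤ, (D : ℝ) * v = z) →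
      ∀ v : ℝ, Val ⊤ Γ v → ∃ z : ℤ, (D : ℝ) * v = z := by
  induction h with
  | comm Q h =>
    intro Γ _ f D hN v hv
    exact hom_comm h f D hN v hv
  | ext Q R g _ _ ih1 ih2 =>
    intro Γ _ f D hN v hv
    refine ih2 (g.comp f) D ?_ v hv
    intro w hw
    refine ih1 ((f.comp (g.comp f).ker.subtype).codRestrict g.ker (fun x => x.2)) D ?_ w hw
    intro u hu
    apply hN
    have hmem : ∀ x : ((f.comp (g.comp f).ker.subtype).codRestrict g.ker (fun x => x.2)).ker,
        f ((x : (g.comp f).ker) : Γ) = 1 := fun x => congrArg Subtype.val x.2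
    refine val_incl' (MonoidHom.mk' (fun x :
      ((f.comp (g.comp f).ker.subtype).codRestrict g.ker (fun x => x.2)).ker =>
      (⟨((x : (g.comp f).ker) : Γ), hmem x⟩ : f.ker)) (fun a b => rfl)) ?_ hu
    intro a b hab
    have h5 := congrArg Subtype.val hab
    exact Subtype.ext (Subtype.ext h5)
  | union Q P h1 _ ih =>
    intro Γ _ f D hN v hv
    classical
    obtain ⟨m, n, A, -, rfl⟩ := hv
    let S : Finset Q := Finset.univ.biUnion fun k => Finset.univ.biUnion fun i =>
      (A k i).support.image f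
    have hS : ∀ k i g, A k i g ≠ 0 → f g ∈ P S := by
      intro k i g hg
      apply h1
      rw [Finset.mem_biUnion]
      refine ⟨k, Finset.mem_univ _, ?_⟩
      rw [Finset.mem_biUnion]
      exact ⟨i, Finset.mem_univ _, Finset.mem_image_of_mem f (Finsupp.mem_support_iff.2 hg)⟩
    have h2 := val_restrict A ((P S).comap f) hS
    refine ih S ((f.comp ((P S).comap f).subtype).codRestrict (P S) (fun x => x.2)) D ?_ _ h2
    intro u hu
    apply hN
    have hmem : ∀ x : ((f.comp ((P S).comap f).subtype).codRestrict (P S) (fun x => x.2)).ker,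
        f ((x : (P S).comap f) : Γ) = 1 := fun x => congrArg Subtype.val x.2
    refine val_incl' (MonoidHom.mk' (fun x :
      ((f.comp ((P S).comap f).subtype).codRestrict (P S) (fun x => x.2)).ker =>
      (⟨((x : (P S).comap f) : Γ), hmem x⟩ : f.ker)) (fun a b => rfl)) ?_ hu
    intro a b hab
    have h5 := congrArg Subtype.val hab
    exact Subtype.ext (Subtype.ext h5)

/-- bounded torsion has a least common multiple -/
theorem exists_isLcm {G : Type} [Group G] {N : ℕ}
    (h : ∀ H : Subgroup G, Finite H → Nat.card H ≤ N) : ∃ d, IsLcm G d := by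
  classical
  have hex : ∃ e : ℕ, 0 < e ∧ ∀ H : Subgroup G, Finite H → Nat.card H ∣ e :=
    ⟨N.factorial, Nat.factorial_pos N, fun H hH => Nat.dvd_factorial Nat.card_pos (h H hH)⟩
  obtain ⟨h0, h1⟩ := Nat.find_spec hex
  refine ⟨Nat.find hex, ⟨N, h⟩, h1, ?_⟩
  intro e he
  rcases Nat.eq_zero_or_pos e with rfl | he0
  · exact dvd_zero _
  have h2 : Nat.find hex ≤ Nat.gcd (Nat.find hex) e :=
    Nat.find_min' hex ⟨Nat.gcd_pos_of_pos_left _ h0, fun H hH => Nat.dvd_gcd (h1 H hH) (he H hH)⟩
  have h3 : Nat.gcd (Nat.find hex) e = Nat.find hex :=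
    le_antisymm (Nat.gcd_le_left _ h0) h2
  rw [← h3]
  exact Nat.gcd_dvd_right _ _

theorem isLcm_pos {G : Type} [Group G] {d : ℕ} (h : IsLcm G d) : 0 < d :=
  Pool.Agent.W656.VA.IsLcm.pos (show Pool.Agent.W656.VA.IsLcm G d from h)

/-- the kernel of a homomorphism to a torsionfree group has the same finite subgroups -/
theorem isLcm_ker {Γ Q : Type} [Group Γ] [Group Q]
    (hQ : ∀ (q : Q) (n : ℕ), 0 < n → q ^ n = 1 → q = 1) (f : Γ →* Q) (d : ℕ) :
    IsLcm f.ker d ↔ IsLcm Γ d := by
  have h1 : ∀ H : Subgroup Γ, Finite H → H ≤ f.ker := by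
    intro H hH x hx
    have h2 : x ^ Nat.card H = 1 := by
      have := pow_card_eq_one' (x := (⟨x, hx⟩ : H))
      exact congrArg Subtype.val this
    exact hQ (f x) _ Nat.card_pos (by rw [← map_pow, h2, map_one])
  have h2 : ∀ P : ℕ → Prop, (∀ H : Subgroup f.ker, Finite H → P (Nat.card H)) ↔
      ∀ H : Subgroup Γ, Finite H → P (Nat.card H) := by
    intro P
    constructor
    · intro h H hH
      have e : H.subgroupOf f.ker ≃* H := Subgroup.subgroupOfEquivOfLe (h1 H hH)
      have hfin : Finite (H.subgroupOf f.ker) := Finite.of_equiv _ e.symm.toEquiv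
      have := h _ hfin
      rwa [Nat.card_congr e.toEquiv] at this
    · intro h H hH
      have e := H.equivMapOfInjective f.ker.subtype Subtype.val_injective
      have hfin : Finite (H.map f.ker.subtype) := Finite.of_equiv _ e.toEquiv
      have := h _ hfin
      rwa [← Nat.card_congr e.toEquiv] at this
  unfold IsLcm
  refine and_congr (exists_congr fun N => h2 (fun c => c ≤ N)) (and_congr (h2 fun c => c ∣ d) ?_)
  exact forall_congr' fun e => imp_congr_left (h2 fun c => c ∣ e)

/-- **Abelian factors, specialisation and torsionfree quotients.**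

1. Let `A` be a matrix over `ℂ[G × ℤ] = ℂ[G][z, z⁻¹]` with `m` rows whose exponents of `z` lie in
   `[a, a + d]`. Specialisation at `ζ ≠ 0` does not decrease the kernel dimension, the sum over
   any finite set of nonzero complex numbers `ζ` of the excess `dim ker A(ζ) - dim ker A` is at
   most `d (m - dim ker A)`, and `dim ker A(ζ) = dim ker A` for all but countably many `ζ`.
2. For every group `G` and every abelian group `B`, the kernel dimensions over `ℂ[G × B]` are
   exactly the numbers `v / n`, with `v` a kernel dimension over `ℂ[G]` and `n` the order of a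
   finite subgroup of `B`. Hence `V(G × B) = V(G)` if `B` is torsionfree, and if `G` satisfies the
   Atiyah conjecture, then so does `G × B`.
3. Let `f : Γ → Q` be a homomorphism to a group of the class `Tame`. A common denominator of the
   kernel dimensions over `ℂ[ker f]` is a common denominator of those over `ℂ[Γ]`, and `Γ`
   satisfies the Atiyah conjecture if and only if `ker f` does. -/
theorem result :
    (∀ (G : Type) [Group G] (m n : ℕ) (A : Matrix (Fin m) (Fin n) (G × Multiplicative ℤ →₀ ℂ))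
      (a : ℤ) (d : ℕ), (∀ i j g, A i j g ≠ 0 → a ≤ Multiplicative.toAdd g.2 ∧
        Multiplicative.toAdd g.2 ≤ a + d) →
      (∀ ζ : ℂ, ζ ≠ 0 → kerDim A ≤ kerDim (specialise A ζ)) ∧
      (∀ s : Finset ℂ, (0 : ℂ) ∉ s →
        ∑ ζ ∈ s, (kerDim (specialise A ζ) - kerDim A) ≤ d * (m - kerDim A)) ∧
      {ζ : ℂ | ζ ≠ 0 ∧ kerDim (specialise A ζ) ≠ kerDim A}.Countable) ∧
    (∀ (G B : Type) [Group G] [CommGroup B],
      kerDims (G × B) = {x | ∃ T : Subgroup B, Finite T ∧ ∃ v ∈ kerDims G,
        x = v / (Nat.card T : ℝ)} ∧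
      ((∀ (b : B) (n : ℕ), 0 < n → b ^ n = 1 → b = 1) → kerDims (G × B) = kerDims G) ∧
      (Atiyah G → Atiyah (G × B))) ∧
    (∀ (Γ Q : Type) [Group Γ] [Group Q], Tame Q → ∀ f : Γ →* Q,
      (∀ D : ℕ, (∀ v ∈ kerDims f.ker, ∃ z : ℤ, (D : ℝ) * v = z) →
        ∀ v ∈ kerDims Γ, ∃ z : ℤ, (D : ℝ) * v = z) ∧
      (Atiyah Γ ↔ Atiyah f.ker)) := by
  refine ⟨fun G _ m n A a d hA => spec_part m n A a d hA, ?_, ?_⟩
  · intro G B _ _
    have hform : kerDims (G × B) = {x | ∃ T : Subgroup B, Finite T ∧ ∃ v ∈ kerDims G,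
        x = v / (Nat.card T : ℝ)} := by
      ext x
      rw [mem_kerDims, val_prod_ab]
      simp only [Set.mem_ofPred_eq, mem_kerDims]
    refine ⟨hform, ?_, ?_⟩
    · intro hB
      ext x
      rw [mem_kerDims, mem_kerDims]
      exact val_prod_comm hB
    · intro hG d hd v hv
      rw [hform] at hv
      obtain ⟨T, hT, w, hw, rfl⟩ := hv
      obtain ⟨⟨N, hN⟩, h1, h2⟩ := hd
      have hprod : ∀ H : Subgroup G, Finite H → Finite (H.prod T) ∧
          Nat.card (H.prod T) = Nat.card H * Nat.card T := by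
        intro H hH
        have e1 := Subgroup.prodEquiv H T
        refine ⟨Finite.of_equiv _ e1.symm.toEquiv, ?_⟩
        rw [Nat.card_congr e1.toEquiv, Nat.card_prod]
      obtain ⟨dG, hdG⟩ := exists_isLcm (G := G) (N := N) (by
        intro H hH
        obtain ⟨h3, h4⟩ := hprod H hH
        have h5 := hN _ h3
        rw [h4] at h5
        exact (Nat.le_mul_of_pos_right _ Nat.card_pos).trans h5)
      have h3 : dG * Nat.card T ∣ d := by
        have h4 : Nat.card T ∣ d := by
          obtain ⟨h5, h6⟩ := hprod ⊥ inferInstance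
          have := h1 _ h5
          rw [h6] at this
          exact (Dvd.intro_left _ rfl).trans this
        obtain ⟨c, rfl⟩ := h4
        rw [mul_comm]
        apply mul_dvd_mul_left
        apply hdG.2.2
        intro H hH
        obtain ⟨h5, h6⟩ := hprod H hH
        have := h1 _ h5
        rw [h6, mul_comm] at this
        exact Nat.dvd_of_mul_dvd_mul_left Nat.card_pos this
      obtain ⟨c, rfl⟩ := h3
      obtain ⟨z, hz⟩ := hG dG hdG w hw
      refine ⟨c * z, ?_⟩
      have hT0 : (Nat.card T : ℝ) ≠ 0 := by exact_mod_cast Nat.card_pos.ne'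
      push_cast
      rw [← hz]
      field_simp
  · intro Γ Q _ _ hQ f
    have htr : ∀ D : ℕ, (∀ v ∈ kerDims f.ker, ∃ z : ℤ, (D : ℝ) * v = z) →
        ∀ v ∈ kerDims Γ, ∃ z : ℤ, (D : ℝ) * v = z := by
      intro D hD v hv
      exact tame_transfer hQ f D (fun w hw => hD w ((mem_kerDims w).2 hw)) v ((mem_kerDims v).1 hv)
    refine ⟨htr, ?_, ?_⟩
    · intro h d hd v hv
      apply h d ((isLcm_ker (tame_torsionfree hQ) f d).1 hd)
      rw [mem_kerDims] at hv ⊢
      exact val_incl' f.ker.subtype Subtype.val_injective hv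
    · intro h d hd
      apply htr
      exact h d ((isLcm_ker (tame_torsionfree hQ) f d).2 hd)

end Pool.Agent.Results.MP_54e5d7_al.AbelianExtensions
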