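import Pool.Agent.Zk53.AT8

set_option autoImplicit false

noncomputable section

namespace Pool.Agent.Results.MP_54e5d7_al.FreeFactorValues

/-- The kernel of right multiplication by the matrix `A` on `ℓ²(G)^m`. -/
def kernel {G : Type} [Group G] {m n : ℕ} (A : Matrix (Fin m) (Fin n) (G →₀ ℂ)) :
    Set (lp (fun _ : Fin m × G => ℂ) 2) :=
  {x | ∀ (j : Fin n) (g : G),
    ∑ i : Fin m, (A i j).sum (fun h c => x (i, g * h⁻¹) * c) = 0}

open Classical in
/-- The von Neumann dimension of this kernel: the sum over `i` of one minus the squared distance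
from the basis vector at `(i, 1)` to the kernel, that is, the trace of the projection onto the
kernel. -/
def kerDim {G : Type} [Group G] {m n : ℕ} (A : Matrix (Fin m) (Fin n) (G →₀ ℂ)) : ℝ :=
  ∑ i : Fin m, (1 - (Metric.infDist
    (lp.single 2 (i, (1 : G)) (1 : ℂ) : lp (fun _ : Fin m × G => ℂ) 2) (kernel A)) ^ 2)

/-- The set of the dimensions of the kernels of all matrices over the group ring `ℂ[G]`. -/
def kerDims (G : Type) [Group G] : Set ℝ :=
  {x | ∃ (m n : ℕ) (A : Matrix (Fin m) (Fin n) (G →₀ ℂ)), kerDim A = x}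

/-- **The kernel dimensions over `ℂ[G * F]`, `F` free of countably infinite rank.** For every
group `G`:

1. the kernel dimensions over `ℂ[G * F]` are exactly the numbers `v - j`, where `v` is a kernel
   dimension over `ℂ[G]` and `j ≤ v` is a natural number;
2. either they are exactly the nonnegative multiples of `1 / N` for some `N ≥ 1`, or they are
   dense in `[0, ∞)`. -/
theorem result (G : Type) [Group G] :
    kerDims (Monoid.Coprod G (FreeGroup ℕ)) =
      {x | ∃ v ∈ kerDims G, ∃ j : ℕ, (j : ℝ) ≤ v ∧ x = v - j} ∧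
    ((∃ N : ℕ, 0 < N ∧
        kerDims (Monoid.Coprod G (FreeGroup ℕ)) = {x : ℝ | ∃ n : ℕ, x = n / N}) ∨
      Set.Ici 0 ⊆ closure (kerDims (Monoid.Coprod G (FreeGroup ℕ)))) := by
  have key : ∀ (H : Type) [Group H] (x : ℝ), x ∈ kerDims H ↔ W656.VA.Val ⊤ H x := by
    intro H _ x
    constructor
    · rintro ⟨m, n, A, rfl⟩
      exact W656.VA.val_kerDim A fun _ _ _ => Subring.mem_top _
    · intro h
      obtain ⟨m, n, A, -, rfl⟩ := W656.VA.exists_kerDim h
      exact ⟨m, n, A, rfl⟩
  refine ⟨?_, ?_⟩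
  · ext x
    rw [key, Zk53.AT.val_coprod]
    constructor
    · rintro ⟨v, j, hv, h1, h2⟩
      exact ⟨v, (key G v).2 hv, j, h1, h2⟩
    · rintro ⟨v, hv, j, h1, h2⟩
      exact ⟨v, j, (key G v).1 hv, h1, h2⟩
  · rcases Zk53.AT.dichotomy_coprod G with ⟨N, hN, h⟩ | h
    · refine Or.inl ⟨N, hN, ?_⟩
      ext x
      rw [key, h]
      rfl
    · refine Or.inr fun a ha => ?_
      rw [Metric.mem_closure_iff]
      intro ε hε
      obtain ⟨x, hx, h1, h2⟩ := h a (a + ε) ha (by linarith)
      refine ⟨x, (key _ x).2 hx, ?_⟩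
      rw [Real.dist_eq, abs_sub_lt_iff]
      constructor <;> linarith

end Pool.Agent.Results.MP_54e5d7_al.FreeFactorValues
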